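import Pool.Agent.R193.CV.CaseB

/-!
# MP_419f2f_co : the cyclic shifts of a word of length `n` have `O(log n)` different
shortest-cover lengths
-/

namespace Pool.Agent.Results.MP_419f2f_co.CyCoSetLogBound

open Pool.Agent.R193.CV

variable {α : Type*}

/-- `C` is a cover of `S`: it is non-empty and every position `p` of `S` lies in an occurrence
of `C` in `S` (an occurrence of `C` at position `q` means that `C` is a prefix of `S.drop q`). -/
def IsCover (C S : List α) : Prop :=
  C ≠ [] ∧ ∀ p < S.length, ∃ q ≤ p, p < q + C.length ∧ C <+: S.drop q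

/-- The length of a shortest cover of `S`. -/
noncomputable def shCovLen (S : List α) : ℕ := sInf {k | ∃ C, IsCover C S ∧ C.length = k}

/-- The set of the lengths of the shortest covers of the cyclic shifts of `S`
(`S.rotate i` moves the first `i` letters to the end). -/
noncomputable def cyCoSet (S : List α) : Finset ℕ :=
  (Finset.range S.length).image fun i => shCovLen (S.rotate i)

theorem cover_iff (R : List α) (hR : 0 < R.length) (k : ℕ) :
    (∃ C, IsCover C R ∧ C.length = k) ↔
      (0 < k ∧ k ≤ R.length ∧ ∀ p < R.length, ∃ q, q ≤ p ∧ p < q + k ∧ q + k ≤ R.length ∧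
        ∀ t < k, R[q + t]? = R[t]?) := by
  constructor
  · rintro ⟨C, ⟨hC, hcov⟩, rfl⟩
    have hpos : 0 < C.length := List.length_pos_iff.mpr hC
    have h0 : C <+: R := by
      obtain ⟨q, hq, _, hpre⟩ := hcov 0 hR
      have : q = 0 := by omega
      subst this
      simpa using hpre
    refine ⟨hpos, h0.length_le, ?_⟩
    intro p hp
    obtain ⟨q, hq, hpq, hpre⟩ := hcov p hp
    have hlen := hpre.length_le
    rw [List.length_drop] at hlen
    refine ⟨q, hq, hpq, by omega, ?_⟩
    intro t ht
    obtain ⟨B, hB⟩ := hpre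
    obtain ⟨B', hB'⟩ := h0
    have e1 : R[q + t]? = C[t]? := by
      rw [← List.getElem?_drop, ← hB, List.getElem?_append_left ht]
    have e2 : R[t]? = C[t]? := by
      rw [← hB', List.getElem?_append_left ht]
    rw [e1, e2]
  · rintro ⟨hk, hkl, hcov⟩
    have hlen : (R.take k).length = k := by
      rw [List.length_take]
      omega
    refine ⟨R.take k, ⟨?_, ?_⟩, hlen⟩
    · intro hc
      rw [hc] at hlen
      simp at hlen
      omega
    · intro p hp
      obtain ⟨q, hq, hpq, hqk, he⟩ := hcov p hp
      refine ⟨q, hq, by rw [hlen]; exact hpq, ?_⟩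
      rw [List.prefix_iff_eq_take, hlen]
      apply List.ext_getElem?
      intro t
      rw [List.getElem?_take, List.getElem?_take]
      split_ifs with ht
      · rw [List.getElem?_drop, he t ht]
      · rfl

/-- The periodic bi-infinite word of `S`. -/
def wd (S : List α) : ℤ → Option α := fun x => S[(x % S.length).toNat]?

theorem wd_add (S : List α) (x m : ℤ) : wd S (x + S.length * m) = wd S x := by
  unfold wd
  rw [Int.add_mul_emod_self_left]

theorem rotate_wd (S : List α) (i t : ℕ) (ht : t < S.length) :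
    (S.rotate i)[t]? = wd S (i + t) := by
  unfold wd
  rw [List.getElem?_rotate ht]
  have : ((i : ℤ) + t) % S.length = (((t + i) % S.length : ℕ) : ℤ) := by
    push_cast
    rw [add_comm]
  rw [this, Int.toNat_natCast]

theorem good_rotate (S : List α) (hS : 0 < S.length) (i : ℕ) :
    Good (wd S) (fun t => wd S (i + t)) i (shCovLen (S.rotate i) : ℤ) := by
  obtain ⟨R, hR⟩ : ∃ R, R = S.rotate i := ⟨_, rfl⟩
  have hlen : R.length = S.length := by rw [hR, List.length_rotate]
  have hRw : ∀ t < S.length, R[t]? = wd S (i + t) := by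
    intro t ht
    rw [hR]
    exact rotate_wd S i t ht
  rw [← hR]
  have hRpos : 0 < R.length := by omega
  have hmem : shCovLen R ∈ {k | ∃ C, IsCover C R ∧ C.length = k} := by
    apply Nat.sInf_mem
    refine ⟨R.length, (cover_iff R hRpos R.length).mpr ⟨hRpos, le_rfl, ?_⟩⟩
    intro p hp
    exact ⟨0, by omega, by omega, by omega, by intro t _; rw [zero_add]⟩
  obtain ⟨hl0, hln, hcov⟩ := (cover_iff R hRpos _).mp hmem
  have hmin : ∀ k, (∃ C, IsCover C R ∧ C.length = k) → shCovLen R ≤ k := fun k hk =>
    Nat.sInf_le hk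
  generalize shCovLen R = l at hl0 hln hcov hmin
  have hocc : ∀ (q : ℕ) (m : ℤ), q + l ≤ S.length → (∀ t < l, R[q + t]? = R[t]?) →
      Occ (wd S) (fun t => wd S (i + t)) l (i + q + S.length * m) := by
    intro q m hq he t h1 h2
    obtain ⟨t, rfl⟩ := Int.eq_ofNat_of_zero_le h1
    have ht : t < l := by exact_mod_cast h2
    have e := he t ht
    rw [hRw _ (by omega), hRw _ (by omega)] at e
    show wd S (i + q + S.length * m + t) = wd S (i + t)
    rw [show ((i : ℤ) + q + S.length * m + t) = (i + (q + t : ℕ)) + S.length * m by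
      push_cast; ring, wd_add, e]
  refine ⟨by exact_mod_cast hl0, ?_, ?_, ?_, ?_⟩
  · intro t _ _
    rfl
  · obtain ⟨q, h1, h2, h3, h4⟩ := hcov (R.length - 1) (by omega)
    have := hocc q (-1) (by omega) h4
    have e : (i : ℤ) + q + S.length * (-1) = i - l := by omega
    rwa [e] at this
  · intro x
    have hn : (0 : ℤ) < S.length := by exact_mod_cast hS
    have hm1 := Int.emod_nonneg (x - i) hn.ne'
    have hm2 := Int.emod_lt_of_pos (x - i) hn
    have hdiv := Int.emod_add_mul_ediv (x - i) S.length
    obtain ⟨p, hp⟩ := Int.eq_ofNat_of_zero_le hm1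
    rw [hp] at hm2 hdiv
    have hpn : p < R.length := by
      rw [hlen]
      exact_mod_cast hm2
    obtain ⟨q, h1, h2, h3, h4⟩ := hcov p hpn
    refine ⟨i + q + S.length * ((x - i) / S.length), ?_, ?_, hocc q _ (by omega) h4⟩
    · generalize (S.length : ℤ) * ((x - i) / S.length) = z at hdiv ⊢
      omega
    · generalize (S.length : ℤ) * ((x - i) / S.length) = z at hdiv ⊢
      omega
  · intro k s h1 h2 h3 h4 h5 h6 h7 h8
    obtain ⟨k, rfl⟩ := Int.eq_ofNat_of_zero_le h1.le
    obtain ⟨s, rfl⟩ := Int.eq_ofNat_of_zero_le h3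
    have h7' : ∀ t < k, R[s + t]? = R[t]? := by
      intro t ht
      have := h7 t (by omega) (by exact_mod_cast ht)
      simp only at this
      rw [hRw _ (by omega), hRw _ (by omega)]
      push_cast at this ⊢
      exact this
    have h8' : ∀ t < k, R[(l - k) + t]? = R[t]? := by
      intro t ht
      have := h8 t (by omega) (by exact_mod_cast ht)
      simp only at this
      rw [hRw _ (by omega), hRw _ (by omega)]
      rw [show ((i : ℤ) + ((l - k + t : ℕ) : ℤ)) = i + ((l : ℤ) - k + t) by omega]
      exact this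
    have := hmin k ((cover_iff R hRpos k).mpr ⟨by omega, by omega, ?_⟩)
    · omega
    · intro p hp
      obtain ⟨q, g1, g2, g3, g4⟩ := hcov p hp
      by_cases c1 : p < q + k
      · exact ⟨q, g1, c1, by omega, fun t ht => g4 t (by omega)⟩
      · by_cases c2 : p < q + s + k
        · refine ⟨q + s, by omega, c2, by omega, fun t ht => ?_⟩
          rw [add_assoc, g4 (s + t) (by omega), h7' t ht]
        · refine ⟨q + (l - k), by omega, by omega, by omega, fun t ht => ?_⟩
          rw [add_assoc, g4 (l - k + t) (by omega), h8' t ht]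

theorem log_step {a b : ℕ} (ha : 0 < a) (hf : ⌊7 * Real.log a⌋₊ = ⌊7 * Real.log b⌋₊) :
    6 * ((b : ℤ) - a) ≤ a := by
  have ha' : (0 : ℝ) < a := by exact_mod_cast ha
  have hla : 0 ≤ Real.log a := Real.log_nonneg (by exact_mod_cast ha)
  have h1 : (⌊7 * Real.log a⌋₊ : ℝ) ≤ 7 * Real.log a := Nat.floor_le (by positivity)
  have h2 : 7 * Real.log b < (⌊7 * Real.log b⌋₊ : ℝ) + 1 := Nat.lt_floor_add_one _
  rw [← hf] at h2
  have h3 : (1 : ℝ) / 7 ≤ Real.log (7 / 6) := by
    have := Real.one_sub_inv_le_log_of_pos (x := 7 / 6) (by norm_num)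
    norm_num at this
    linarith
  have h4 : Real.log b < Real.log (7 / 6 * a) := by
    rw [Real.log_mul (by norm_num) ha'.ne']
    linarith
  have h5 : (b : ℝ) < 7 / 6 * a := by
    by_contra hc
    push Not at hc
    have := Real.log_le_log (by positivity) hc
    linarith
  have h6 : (6 * b : ℝ) < 7 * a := by linarith
  have h7 : 6 * b < 7 * a := by exact_mod_cast h6
  omega

/-- **Main result.** For every word `S` of length `n ≥ 2`, over any alphabet, the set of
lengths of shortest covers of cyclic shifts of `S` has at most `17 log n` elements. -/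
theorem result (S : List α) (hS : 2 ≤ S.length) :
    ((cyCoSet S).card : ℝ) ≤ 17 * Real.log S.length := by
  classical
  have hS0 : 0 < S.length := by omega
  have hgood : ∀ l ∈ cyCoSet S, ∃ (C : ℤ → Option α) (i : ℤ), Good (wd S) C i (l : ℤ) := by
    intro l hl
    obtain ⟨i, _, rfl⟩ := Finset.mem_image.mp hl
    exact ⟨_, _, good_rotate S hS0 i⟩
  have hpos : ∀ l ∈ cyCoSet S, 0 < l := by
    intro l hl
    obtain ⟨C, i, h⟩ := hgood l hl
    exact_mod_cast h.pos
  have hle : ∀ l ∈ cyCoSet S, l ≤ S.length := by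
    intro l hl
    obtain ⟨i, _, rfl⟩ := Finset.mem_image.mp hl
    have hlen : (S.rotate i).length = S.length := List.length_rotate ..
    rw [← hlen]
    apply Nat.sInf_le
    refine (cover_iff _ (by omega) _).mpr ⟨by omega, le_rfl, ?_⟩
    intro p hp
    exact ⟨0, by omega, by omega, by omega, by intro t _; rw [zero_add]⟩
  have hlog2 : (0.6931471803 : ℝ) < Real.log 2 := Real.log_two_gt_d9
  have hlogn : Real.log 2 ≤ Real.log S.length :=
    Real.log_le_log (by norm_num) (by exact_mod_cast hS)
  have hcard : (cyCoSet S).card ≤ 2 * (Finset.range (⌊7 * Real.log S.length⌋₊ + 1)).card := by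
    refine Finset.card_le_mul_card_image_of_maps_to (f := fun l => ⌊7 * Real.log (l : ℕ)⌋₊)
      ?_ 2 ?_
    · intro l hl
      rw [Finset.mem_range, Nat.lt_succ_iff]
      apply Nat.floor_le_floor
      have h1 : (0 : ℝ) < l := by exact_mod_cast hpos l hl
      have h2 : (l : ℝ) ≤ S.length := by exact_mod_cast hle l hl
      have := Real.log_le_log h1 h2
      linarith
    · intro b _
      by_contra hc
      push Not at hc
      obtain ⟨F, hF⟩ : ∃ F, F = Finset.filter (fun l => ⌊7 * Real.log (l : ℕ)⌋₊ = b)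
        (cyCoSet S) := ⟨_, rfl⟩
      rw [← hF] at hc
      have hFm : ∀ l, l ∈ F ↔ l ∈ cyCoSet S ∧ ⌊7 * Real.log (l : ℕ)⌋₊ = b := by
        intro l
        rw [hF, Finset.mem_filter]
      have hne : F.Nonempty := Finset.card_pos.mp (by omega)
      have ha := F.min'_mem hne
      have hmin : ∀ l ∈ F, F.min' hne ≤ l := fun l hl => F.min'_le l hl
      generalize F.min' hne = a at ha hmin
      have h2 : 1 < (F.erase a).card := by
        rw [Finset.card_erase_of_mem ha]
        omega
      obtain ⟨c, hcF, d, hdF, hcd⟩ := Finset.one_lt_card.mp h2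
      rw [Finset.mem_erase] at hcF hdF
      have hac : a < c := lt_of_le_of_ne (hmin c hcF.2) (Ne.symm hcF.1)
      have had : a < d := lt_of_le_of_ne (hmin d hdF.2) (Ne.symm hdF.1)
      obtain ⟨ha1, ha2⟩ := (hFm a).mp ha
      obtain ⟨hc1, hc2⟩ := (hFm c).mp hcF.2
      obtain ⟨hd1, hd2⟩ := (hFm d).mp hdF.2
      obtain ⟨C, i, hG⟩ := hgood a ha1
      obtain ⟨C', j, hG'⟩ := hgood c hc1
      obtain ⟨C'', k, hG''⟩ := hgood d hd1
      have := unique_next hG hG' hG'' (by exact_mod_cast hac)
        (log_step (hpos a ha1) (by rw [ha2, hc2])) (by exact_mod_cast had)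
        (log_step (hpos a ha1) (by rw [ha2, hd2]))
      exact hcd (by exact_mod_cast this)
  rw [Finset.card_range] at hcard
  have hfl : (⌊7 * Real.log S.length⌋₊ : ℝ) ≤ 7 * Real.log S.length :=
    Nat.floor_le (by linarith)
  have hcard' : ((cyCoSet S).card : ℝ) ≤ 2 * (⌊7 * Real.log S.length⌋₊ + 1) := by
    exact_mod_cast hcard
  linarith

end Pool.Agent.Results.MP_419f2f_co.CyCoSetLogBound
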